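import Pool.Agent.W782.GC.Vol
import Pool.Agent.W462.GC.Tri
import Pool.Agent.W425.SG.Main
import Pool.Agent.W54.SG.C4

set_option autoImplicit false

/-! The volumes defined by Lebesgue measure are those defined by regular triangulations. -/

namespace Pool.Agent.W422.GC

open Pool.Agent.H628R4.TZ Pool.Agent.H628R4.TP Pool.Agent.W425.SM MeasureTheory
open Pool.Agent.W425.SG (IndJ Comb Adm)

variable {r N : ℕ}

lemma retr_lin (φ : ℝ →ₗ[ℚ] ℚ) (x : ℝ) (q : ℚ) : φ (x * (q : ℝ)) = φ x * q := by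
  have h1 : x * (q : ℝ) = q • x := by rw [Rat.smul_def, mul_comm]
  rw [h1, map_smul, smul_eq_mul, mul_comm]

/-- a real affine combination of affinely independent rational points with a rational value has
rational coefficients -/
lemma rat_comb (v : Fin r → Fin N → ℕ) (J : Finset (Fin r)) (hJ : IndJ v J) (l : Fin r)
    (c : Fin r → ℝ) (h0 : ∀ j ∉ J, c j = 0) (h1 : ∑ j, c j = 1)
    (h2 : ∀ i, ∑ j, c j * (v j i : ℝ) = (v l i : ℝ)) :
    ∃ q : Fin r → ℚ, Comb v J l q ∧ ∀ j, c j = (q j : ℝ) := by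
  classical
  obtain ⟨φ, hφ⟩ := Pool.Agent.W782.GC.exists_retr
  have hcomb : ∀ ψ : ℝ →ₗ[ℚ] ℚ, (∀ j ∉ J, ψ (c j) = 0) ∧ ∑ j, ψ (c j) = ψ 1 ∧
      ∀ i, ∑ j, ψ (c j) * (v j i : ℚ) = ψ 1 * (v l i : ℚ) := by
    intro ψ
    refine ⟨fun j hj => by rw [h0 j hj, map_zero], by rw [← map_sum, h1], fun i => ?_⟩
    have h3 := congrArg ψ (h2 i)
    rw [map_sum] at h3
    have h4 : ψ (v l i : ℝ) = ψ 1 * (v l i : ℚ) := by
      have := retr_lin ψ 1 (v l i : ℚ)
      rw [one_mul] at this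
      rw [← this]
      norm_num
    rw [← h4, ← h3]
    refine Finset.sum_congr rfl fun j _ => ?_
    rw [← retr_lin]
    norm_num
  have hφ1 : φ 1 = 1 := by simpa using hφ 1
  refine ⟨fun j => φ (c j), ⟨(hcomb φ).1, by rw [(hcomb φ).2.1, hφ1], fun i => by
    rw [(hcomb φ).2.2 i, hφ1, one_mul]⟩, fun j => ?_⟩
  have key : ∀ ψ : ℝ →ₗ[ℚ] ℚ, ψ (c j - (φ (c j) : ℝ)) = 0 := by
    intro ψ
    set w : Fin r → ℚ := fun j => ψ (c j) - ψ 1 * φ (c j) with hw
    have hw0 : ∀ j, j ∉ J → w j = 0 := fun j hj => by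
      rw [hw]
      simp only
      rw [h0 j hj, map_zero, map_zero, mul_zero, sub_zero]
    have hw1 : ∑ j, w j = 0 := by
      rw [hw]
      simp only
      rw [Finset.sum_sub_distrib, ← Finset.mul_sum, (hcomb ψ).2.1, (hcomb φ).2.1, hφ1, mul_one,
        sub_self]
    have hw2 : ∀ i, ∑ j, w j * (v j i : ℚ) = 0 := by
      intro i
      rw [hw]
      simp only [sub_mul, mul_assoc]
      rw [Finset.sum_sub_distrib, ← Finset.mul_sum, (hcomb ψ).2.2 i, (hcomb φ).2.2 i, hφ1, one_mul,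
        sub_self]
    have hz : ∀ j : J, w j = 0 := by
      have h5 := (affineIndependent_iff (k := ℚ)
        (p := fun j : J => (fun i => (v j i : ℚ) : Fin N → ℚ))).1 hJ Finset.univ
        (fun j : J => w j) (by
          rw [Finset.sum_coe_sort J w, ← hw1]
          exact Finset.sum_subset (Finset.subset_univ _) fun j _ hj => hw0 j hj) (by
          funext i
          rw [Finset.sum_apply]
          simp only [Pi.smul_apply, smul_eq_mul, Pi.zero_apply]
          rw [Finset.sum_coe_sort J (fun j => w j * (v j i : ℚ)), ← hw2 i]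
          exact Finset.sum_subset (Finset.subset_univ _) fun j _ hj => by rw [hw0 j hj, zero_mul])
      exact fun j => h5 j (Finset.mem_univ _)
    have h6 : w j = 0 := by
      by_cases hj : j ∈ J
      · exact hz ⟨j, hj⟩
      · exact hw0 j hj
    rw [map_sub]
    have h7 : ψ ((φ (c j) : ℚ) : ℝ) = ψ 1 * φ (c j) := by
      have := retr_lin ψ 1 (φ (c j))
      rwa [one_mul] at this
    rw [h7]
    exact h6
  have h8 := (Module.forall_dual_apply_eq_zero_iff ℚ (c j - (φ (c j) : ℝ))).1 fun ψ => key ψ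
  linarith

lemma low_iff (v : Fin r → Fin N → ℕ) (θ : Fin r → ℝ) (J : Finset (Fin r)) (hJ : IndJ v J) :
    Low v (fun j => -θ j) J ↔ Adm v θ J := by
  constructor
  · intro h l hl c hc
    have h1 := h l hl (fun j => (c j : ℝ)) (fun j hj => by simp [hc.1 j hj])
      (by exact_mod_cast hc.2.1) (fun i => by exact_mod_cast hc.2.2 i)
    simp only [mul_neg, Finset.sum_neg_distrib] at h1
    linarith
  · intro h l hl c h0 h1 h2
    obtain ⟨q, hq, hqc⟩ := rat_comb v J hJ l c h0 h1 h2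
    have h3 := h l hl q hq
    simp only [mul_neg, Finset.sum_neg_distrib]
    simp only [hqc]
    linarith

open Classical in
/-- the normalised volume by a regular triangulation is the Lebesgue volume -/
theorem faceVol_eq (v : Fin r → Fin N → ℕ) (θ : Fin r → ℝ) (hθ : LinearIndependent ℚ θ)
    (R : SmoothFan N) (σ : Finset (Fin N → ℕ)) (hσ : σ ∈ R.cones) (hc : σ.card < N)
    (B : Matrix (Fin N) (Fin N) ℤ) (hB : IsCompl σ B) :
    faceVol v σ B = (Pool.Agent.W425.SG.nvol v θ σ : ℝ) := by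
  have hθ' : LinearIndependent ℚ (fun j => -θ j) := by
    have h := hθ.units_smul (fun _ => (-1 : ℚˣ))
    have e : (fun _ : Fin r => (-1 : ℚˣ)) • θ = fun j => -θ j := by
      funext j
      simp [Units.smul_def]
    rwa [e] at h
  rw [Pool.Agent.W782.GC.volMain Pool.Agent.W462.GC.main v _ hθ' R σ hσ hc B hB]
  unfold Pool.Agent.W425.SG.nvol
  push_cast
  rw [Finset.sum_filter, Finset.sum_filter]
  refine Finset.sum_congr rfl fun J _ => ?_
  by_cases h0 : idx v J = 0
  · rw [h0]; simp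
  have hJ : IndJ v J := (Pool.Agent.W54.SG.taskC4 v J).1.1 h0
  by_cases h1 : σ.card + J.card = N + 1 ∧ Low v (fun j => -θ j) J
  · rw [if_pos h1, if_pos ⟨h1.1, (low_iff v θ J hJ).1 h1.2⟩]
  · rw [if_neg h1, if_neg (fun h => h1 ⟨h.1, (low_iff v θ J hJ).2 h.2⟩)]

theorem chiG_eq (v : Fin r → Fin N → ℕ) (θ : Fin r → ℝ) (hθ : LinearIndependent ℚ θ)
    (R : SmoothFan N) (σ : Finset (Fin N → ℕ)) (hσ : σ ∈ R.cones) :
    chiG v R σ = ((Pool.Agent.W425.SG.chiG v θ σ : ℤ) : ℝ) := by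
  unfold chiG Pool.Agent.W425.SG.chiG
  by_cases hc : σ.card < N
  · rw [dif_pos ⟨hσ, hc⟩, if_pos hc,
      faceVol_eq v θ hθ R σ hσ hc _ (Classical.choose_spec (R.smooth σ hσ))]
    have h1 : N + 1 - σ.card = N - σ.card + 1 := by omega
    rw [h1]
    push_cast
    ring
  · rw [dif_neg (fun h => hc h.2), if_neg hc]
    simp

open Classical in
theorem topZG_eq (v : Fin r → Fin N → ℕ) (θ : Fin r → ℝ) (hθ : LinearIndependent ℚ θ)
    (R : SmoothFan N) (α : ℝ) : topZG v R α = Pool.Agent.W425.SG.topG v θ R α := by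
  unfold topZG Pool.Agent.W425.SG.topG
  refine Finset.sum_congr rfl fun σ hσ => ?_
  have hσ' := (Finset.mem_filter.1 hσ).1
  rw [chiG_eq v θ hθ R σ hσ']
  congr 2
  · push_cast
    simp
  · push_cast
    simp

/-- heights exist -/
theorem exists_heights (r : ℕ) : ∃ θ : Fin r → ℝ, LinearIndependent ℚ θ := by
  refine (Module.le_rank_iff (R := ℚ) (M := ℝ) (n := r)).1 ?_
  rw [Real.rank_rat_real]
  exact (Cardinal.natCast_lt_aleph0.trans Cardinal.aleph0_lt_continuum).le

end Pool.Agent.W422.GC
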