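import Pool.Agent.W422.GC.Rig2
import Pool.Agent.W422.GC.Vol2

set_option autoImplicit false

/-! The theorems for very general coefficients, for all `b ∈ ℂ[s]`, with true volumes. -/

namespace Pool.Agent.W422.GC

open Pool.Agent.H628R4.TZ Pool.Agent.H628R4.TP Pool.Agent.W425.SM

variable {r N : ℕ}

/-- The global topological zeta function. -/
noncomputable def topZetaG (v : Fin r → Fin N → ℕ) (R : SmoothFan N) : RatFunc ℂ :=
  ∑ σ ∈ R.cones, (RatFunc.C (((chiO σ : ℝ) - chiG v R σ : ℝ) : ℂ) +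
      RatFunc.C ((chiG v R σ : ℝ) : ℂ) * (RatFunc.X + 1)⁻¹) *
    ∏ ρ ∈ σ, ((ordAlong v ρ : RatFunc ℂ) * RatFunc.X + ((∑ l, ρ l : ℕ) : RatFunc ℂ))⁻¹

/-- The local topological zeta function at the origin: the cones whose relative interior is in the
open orthant. -/
noncomputable def topZetaGLocal (v : Fin r → Fin N → ℕ) (R : SmoothFan N) : RatFunc ℂ :=
  open Classical in
  ∑ σ ∈ R.cones.filter (fun σ => ∀ l, ∃ ρ ∈ σ, ρ l ≠ 0),
    (RatFunc.C (((chiO σ : ℝ) - chiG v R σ : ℝ) : ℂ) +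
      RatFunc.C ((chiG v R σ : ℝ) : ℂ) * (RatFunc.X + 1)⁻¹) *
    ∏ ρ ∈ σ, ((ordAlong v ρ : RatFunc ℂ) * RatFunc.X + ((∑ l, ρ l : ℕ) : RatFunc ℂ))⁻¹

lemma topZG_one (v : Fin r → Fin N → ℕ) (R : SmoothFan N) : topZG v R 1 = topZetaG v R := by
  classical
  unfold topZG topZetaG
  refine Finset.sum_congr ?_ fun _ _ => rfl
  refine Finset.filter_true_of_mem fun σ _ => ?_
  exact Or.inl one_pos

lemma topZG_neg (v : Fin r → Fin N → ℕ) (R : SmoothFan N) :
    topZG v R (-1) = topZetaGLocal v R := by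
  classical
  unfold topZG topZetaGLocal
  refine Finset.sum_congr ?_ fun _ _ => rfl
  refine Finset.filter_congr fun σ _ => ?_
  unfold Inc
  constructor
  · rintro (h | h)
    · norm_num at h
    · exact h
  · exact Or.inr

/-- the true volumes in the theorems which use heights -/
lemma topZetaG_eq (v : Fin r → Fin N → ℕ) (θ : Fin r → ℝ) (hθ : LinearIndependent ℚ θ)
    (R : SmoothFan N) : topZetaG v R = Pool.Agent.W425.SG.topZetaGen v θ R := by
  rw [← topZG_one, topZG_eq v θ hθ, Pool.Agent.W425.SG.topG_one]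

lemma topZetaGLocal_eq (v : Fin r → Fin N → ℕ) (θ : Fin r → ℝ) (hθ : LinearIndependent ℚ θ)
    (R : SmoothFan N) : topZetaGLocal v R = Pool.Agent.W425.SG.topZetaGenLocal v θ R := by
  rw [← topZG_neg, topZG_eq v θ hθ, Pool.Agent.W425.SG.topG_neg]

open Polynomial in
/-- Core: from a functional equation with a unit of `S`. -/
theorem final_J {F : Type} [Field F] [Algebra F ℂ] [NeZero r] (loc : Prop)
    (S : Submonoid (MvPolynomial (Fin N) ℂ))
    (hS : ∀ g ∈ S, MvPolynomial.constantCoeff g = 1 ∧ (¬ loc → g = 1))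
    (v : Fin r → Fin N → ℕ) (a : Fin r → ℂ)
    (hv : Function.Injective v) (hv0 : ∀ j, v j ≠ 0) (ha : AlgebraicIndependent F a)
    (h : MvPolynomial (Fin N) F) (hh : ∀ w ∈ h.support, Pool.Agent.W425.SV.NP v w)
    (R : SmoothFan N) (hR : Principal v R)
    (α : ℝ) (hα0 : α ≠ 0) (hα : loc → α < 0)
    (b : ℂ[X])
    (hb : Pool.Agent.W591.GC.J S (sparse v a + MvPolynomial.map (algebraMap F ℂ) h) 1 b) :
    ∃ P : ℂ[X], algebraMap ℂ[X] (RatFunc ℂ) b * topZG v R α =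
      algebraMap ℂ[X] (RatFunc ℂ) P := by
  obtain ⟨θ, hθ⟩ := exists_heights r
  by_cases hb0 : b = 0
  · exact ⟨0, by rw [hb0, map_zero, zero_mul]⟩
  obtain ⟨p, q, hbp, hp⟩ := rel_of_unit loc S hS v a hv hv0 ha h hh θ hθ b hb0 hb
  obtain ⟨P, hP⟩ := Pool.Agent.W425.SV.mainV_rel v hv hv0 θ hθ loc R hR α hα0 hα p hp
  refine ⟨P * q, ?_⟩
  rw [topZG_eq v θ hθ, hbp, map_mul, mul_right_comm, hP, map_mul]

open Polynomial in
/-- **The global theorem for every `b ∈ ℂ[s]`.** -/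
theorem finalGlobalC {F : Type} [Field F] [Algebra F ℂ]
    (hr : 1 ≤ r) (v : Fin r → Fin N → ℕ) (a : Fin r → ℂ)
    (hv : Function.Injective v) (hv0 : ∀ j, v j ≠ 0) (ha : AlgebraicIndependent F a)
    (h : MvPolynomial (Fin N) F) (hh : ∀ w ∈ h.support, Pool.Agent.W425.SV.Hull v w)
    (R : SmoothFan N) (hR : Principal v R)
    (b : ℂ[X]) (hb : IsBFunction (sparse v a + MvPolynomial.map (algebraMap F ℂ) h) b) :
    ∃ P : ℂ[X], algebraMap ℂ[X] (RatFunc ℂ) b * topZetaG v R =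
      algebraMap ℂ[X] (RatFunc ℂ) P := by
  have : NeZero r := ⟨by omega⟩
  rw [← topZG_one]
  refine final_J False ⊥ (fun g hg => ?_) v a hv hv0 ha h (fun w hw => ?_) R hR 1 one_ne_zero
    (fun h => h.elim) b ((Pool.Agent.W591.GC.J_bot _ b).2 hb)
  · rw [Submonoid.mem_bot] at hg
    exact ⟨by rw [hg, map_one], fun _ => hg⟩
  · obtain ⟨l, h1, h2, h3⟩ := hh w hw
    exact ⟨l, h1, h2, fun i => (h3 i).le⟩

open Polynomial in
/-- **The local theorem for every `b ∈ ℂ[s]`.** -/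
theorem finalLocalC {F : Type} [Field F] [Algebra F ℂ]
    (hr : 1 ≤ r) (v : Fin r → Fin N → ℕ) (a : Fin r → ℂ)
    (hv : Function.Injective v) (hv0 : ∀ j, v j ≠ 0) (ha : AlgebraicIndependent F a)
    (h : MvPolynomial (Fin N) F) (hh : ∀ w ∈ h.support, Pool.Agent.W425.SV.NP v w)
    (R : SmoothFan N) (hR : Principal v R)
    (b : ℂ[X]) (hb : Pool.Agent.H628R4.TP.IsLocalBFunction
      (sparse v a + MvPolynomial.map (algebraMap F ℂ) h) b) :
    ∃ P : ℂ[X], algebraMap ℂ[X] (RatFunc ℂ) b * topZetaGLocal v R =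
      algebraMap ℂ[X] (RatFunc ℂ) P := by
  have : NeZero r := ⟨by omega⟩
  rw [← topZG_neg]
  obtain ⟨_, c, P, hc, hP⟩ := Pool.Agent.W368.SL.taskL1 _ _
    (Pool.Agent.W425.SV.f_ne_zero hv a ha h)
    (Pool.Agent.W425.SV.f_const hv0 a h hh) (Pool.Agent.W425.SL.toSL hb)
  refine final_J True (Pool.Agent.W591.GC.S1 N) (fun g hg => ⟨Pool.Agent.W591.GC.mem_S1.1 hg,
    fun h => absurd trivial h⟩) v a hv hv0 ha h hh R hR (-1) (by norm_num)
    (fun _ => by norm_num) b ((Pool.Agent.W591.GC.J_iff _ _ b).2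
      ⟨c, Pool.Agent.W591.GC.mem_S1.2 hc, P, fun s => ?_⟩)
  rw [← hP s]
  ring

end Pool.Agent.W422.GC
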