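import Pool.Agent.W591.GC.Rig
import Pool.Agent.W605.GC.Der
import Pool.Agent.W125.GC.M1
import Pool.Agent.W425.SV.Final

set_option autoImplicit false

/-! The Bernstein-Sato polynomial has algebraic coefficients; consequences. -/

namespace Pool.Agent.W422.GC

open Pool.Agent.H628R4.TZ Pool.Agent.H628R4.TP Pool.Agent.W425.SM

variable {r N : ℕ}

/-- a complex number killed by all derivations is algebraic -/
lemma algebraic_of_der (z : ℂ) (h : ∀ δ : Derivation ℤ ℂ ℂ, δ z = 0) : IsAlgebraic ℚ z := by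
  by_contra hz
  have h1 : AlgebraicIndependent ℚ (fun _ : Fin 1 => z) := by
    rw [algebraicIndependent_unique_type_iff]
    exact hz
  obtain ⟨δ, hδ⟩ := Pool.Agent.W605.GC.Der.main _ h1
  have h2 := hδ 0 0
  rw [h (δ 0)] at h2
  simp at h2

open Polynomial Pool.Agent.W591.GC in
/-- the generator of the ideal of the `b`-functions -/
lemma exists_min (S : Submonoid (MvPolynomial (Fin N) ℂ)) (f : MvPolynomial (Fin N) ℂ) (b : ℂ[X])
    (hb : b ≠ 0) (h : J S f 1 b) :
    ∃ b0 : ℂ[X], b0.Monic ∧ J S f 1 b0 ∧ b0 ∣ b ∧ ∀ n, IsAlgebraic ℚ (b0.coeff n) := by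
  classical
  have hex : ∃ n : ℕ, ∃ c : ℂ[X], c.Monic ∧ J S f 1 c ∧ c.natDegree = n := by
    refine ⟨_, C (b.leadingCoeff)⁻¹ * b, ?_, J_mul _ h, rfl⟩
    exact monic_C_mul_of_mul_leadingCoeff_eq_one (inv_mul_cancel₀ (leadingCoeff_ne_zero.2 hb))
  obtain ⟨b0, hm, h1, h2⟩ := Nat.find_spec hex
  have hmin : ∀ b' : ℂ[X], b'.Monic → J S f 1 b' → b0.natDegree ≤ b'.natDegree := by
    intro b' hm' h'
    rw [h2]
    exact Nat.find_min' hex ⟨b', hm', h', rfl⟩
  exact ⟨b0, hm, h1, J_dvd hm h1 hmin h,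
    fun n => algebraic_of_der _ fun δ => rigid δ hm h1 hmin n⟩

/-- the field of the numbers which are algebraic over `F` -/
noncomputable abbrev AC (F : Type) [Field F] [Algebra F ℂ] : IntermediateField F ℂ :=
  algebraicClosure F ℂ

lemma mem_AC (F : Type) [Field F] [Algebra F ℂ] {z : ℂ} (h : IsAlgebraic ℚ z) : z ∈ AC F := by
  have : CharZero F := (algebraMap F ℂ).charZero
  let _ : Algebra ℚ F := DivisionRing.toRatAlgebra
  have : IsScalarTower ℚ F ℂ := inferInstance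
  rw [mem_algebraicClosure_iff]
  exact h.extendScalars (algebraMap ℚ F).injective

open Polynomial in
lemma lift_AC (F : Type) [Field F] [Algebra F ℂ] (b : ℂ[X]) (h : ∀ n, IsAlgebraic ℚ (b.coeff n)) :
    ∃ b' : (AC F)[X], b'.map (algebraMap (AC F) ℂ) = b := by
  have h1 : b ∈ Polynomial.lifts (algebraMap (AC F) ℂ) := by
    rw [Polynomial.lifts_iff_coeff_lifts]
    intro n
    exact ⟨⟨b.coeff n, mem_AC F (h n)⟩, rfl⟩
  rw [Polynomial.mem_lifts] at h1
  exact h1

lemma indep_AC (F : Type) [Field F] [Algebra F ℂ] (a : Fin r → ℂ) (ha : AlgebraicIndependent F a) :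
    AlgebraicIndependent (AC F) a := by
  have : Algebra.IsAlgebraic F (AC F) := inferInstance
  exact ha.extendScalars (AC F)

open Polynomial in
/-- **The relation holds for the reduced `b`-function.** -/
theorem rel_of_unit {F : Type} [Field F] [Algebra F ℂ] [NeZero r] (loc : Prop)
    (S : Submonoid (MvPolynomial (Fin N) ℂ))
    (hS : ∀ g ∈ S, MvPolynomial.constantCoeff g = 1 ∧ (¬ loc → g = 1))
    (v : Fin r → Fin N → ℕ) (a : Fin r → ℂ)
    (hv : Function.Injective v) (hv0 : ∀ j, v j ≠ 0) (ha : AlgebraicIndependent F a)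
    (h : MvPolynomial (Fin N) F) (hh : ∀ w ∈ h.support, Pool.Agent.W425.SV.NP v w)
    (θ : Fin r → ℝ) (hθ : LinearIndependent ℚ θ)
    (b : ℂ[X]) (hb0 : b ≠ 0)
    (hb : Pool.Agent.W591.GC.J S (sparse v a + MvPolynomial.map (algebraMap F ℂ) h) 1 b) :
    ∃ p q : ℂ[X], b = (X + 1) * p * q ∧ Pool.Agent.W425.SV.RelV v θ loc p := by
  obtain ⟨b0, hm, h1, h2, h3⟩ := exists_min S _ b hb0 hb
  obtain ⟨q, hq⟩ := h2
  obtain ⟨b', hb'⟩ := lift_AC F b0 h3
  -- `b0 (-1) = 0`
  obtain ⟨g, hg, hFE⟩ := (Pool.Agent.W591.GC.J_iff S _ b0).1 h1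
  have hm1 : b0.eval (-1) = 0 := by
    refine _root_.W125.GC.main g _ b0 0 (Pool.Agent.W425.SV.f_ne_zero hv a ha h) ?_ ?_ hFE
    · rw [MvPolynomial.eval_zero]
      exact Pool.Agent.W425.SV.f_const hv0 a h hh
    · rw [MvPolynomial.eval_zero, (hS g hg).1]
      exact one_ne_zero
  obtain ⟨p, hp⟩ := Pool.Agent.W425.SV.dvd_ofF (F := AC F) (b := b') (by rw [hb']; exact hm1)
  obtain ⟨P, hP⟩ := hFE
  have hmap : MvPolynomial.map (algebraMap (AC F) ℂ)
      (MvPolynomial.map (algebraMap F (AC F)) h) = MvPolynomial.map (algebraMap F ℂ) h := by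
    rw [MvPolynomial.map_map, ← IsScalarTower.algebraMap_eq]
  have hsupp : ∀ w ∈ (MvPolynomial.map (algebraMap F (AC F)) h).support,
      Pool.Agent.W425.SV.NP v w := fun w hw => hh w (MvPolynomial.support_map_subset _ _ hw)
  have h5 := Pool.Agent.W74.SV.taskV1 loc v (MvPolynomial.map (algebraMap F (AC F)) h) a b'
    (indep_AC F a ha) (by
      rw [hmap, hb']
      refine ⟨g, P, (hS g hg).1, (hS g hg).2, fun s => ?_⟩
      rw [← hP s]
      ring)
  rw [hp] at h5
  refine ⟨p.map (algebraMap (AC F) ℂ), q, ?_,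
    Pool.Agent.W368.SV.taskV2 loc v _ p θ hθ hsupp h5⟩
  rw [hq, ← hb', hp, Polynomial.map_mul]
  simp

end Pool.Agent.W422.GC
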