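import Pool.Agent.W30.TW.Ker
import Pool.Agent.W422.GC.Rig2
import Pool.Agent.W422.GC.Vol2

set_option autoImplicit false

/-! The twisted topological zeta functions for very general coefficients. -/

namespace Pool.Agent.W422.GC.Tw

open MvPolynomial Pool.Agent.H628R4.TZ Pool.Agent.H628R4.TP MeasureTheory Set Filter Topology
open Pool.Agent.W425.SG Pool.Agent.W30.TW
open Pool.Agent.W425.SM hiding Φ_XJ Φ_kerP yz_tendsto bdry_lim ker_lim Zt

variable {r N : ℕ}

/-- A cone of the dimension of the face dual to the simplex `J` generates the lattice of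
all `w` with `⟨w, v_j⟩` independent of `j ∈ J`. -/
lemma exists_combJ (v : Fin r → Fin N → ℕ) (J : Finset (Fin r)) (hv : IndJ v J) (R : SmoothFan N)
    (σ : Finset (Fin N → ℕ)) (hσ : σ ∈ R.cones) (hJ : J.Nonempty)
    (hmin : ∀ ρ ∈ σ, ∀ j ∈ J, ∀ j' ∈ J, ∑ l, ρ l * v j l = ∑ l, ρ l * v j' l)
    (hcard : σ.card + J.card = N + 1) (w : Fin N → ℤ) (t : ℤ)
    (hw : ∀ j ∈ J, ∑ i, w i * (v j i : ℤ) + t = 0) :
    ∃ c : (Fin N → ℕ) → ℤ, ∀ l, w l = ∑ ρ ∈ σ, c ρ * (ρ l : ℤ) := by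
  classical
  obtain ⟨B, hB, hrow⟩ := R.smooth σ hσ
  choose f hf using fun ρ : σ => hrow ρ ρ.2
  have hinj : Function.Injective f := by
    intro ρ ρ' h
    apply Subtype.ext
    funext l
    have h1 := hf ρ l
    have h2 := hf ρ' l
    rw [h] at h1
    rw [h1] at h2
    exact_mod_cast h2
  -- integer coordinates of `w`
  set c : Fin N → ℤ := Matrix.vecMul w B⁻¹ with hc
  have hwB : Matrix.vecMul c B = w := by
    rw [hc, Matrix.vecMul_vecMul, Matrix.nonsing_inv_mul _ hB, Matrix.vecMul_one]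
  obtain ⟨j0, hj0⟩ := hJ
  set T : Finset (Fin N) := Finset.univ.filter (fun i => ∀ ρ, f ρ ≠ i) with hT
  have hTc : T.card = J.card - 1 := by
    have h1 : (Finset.univ.image f).card = σ.card := by
      rw [Finset.card_image_of_injective _ hinj, Finset.card_univ, Fintype.card_coe]
    have h2 : T = (Finset.univ.image f)ᶜ := by
      ext i
      simp [hT]
    rw [h2, Finset.card_compl, h1, Fintype.card_fin]
    omega
  -- the vectors `B (v_j - v_j0)` restricted to `T`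
  let g : {j // j ∈ J.erase j0} → (T → ℚ) := fun j i =>
    ∑ l, (B i l : ℚ) * ((v j l : ℚ) - (v j0 l : ℚ))
  have hli0 := (affineIndependent_iff_linearIndependent_vsub ℚ
    (fun j : J => (fun i => (v j i : ℚ) : Fin N → ℚ)) ⟨j0, hj0⟩).1 hv
  have hg : LinearIndependent ℚ g := by
    rw [Fintype.linearIndependent_iff]
    intro a ha
    set d : Fin N → ℚ := fun l => ∑ j, a j * ((v j l : ℚ) - (v j0 l : ℚ)) with hd
    have hBd : ∀ i, ∑ l, (B i l : ℚ) * d l = 0 := by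
      intro i
      have h1 : ∑ l, (B i l : ℚ) * d l =
          ∑ j, a j * ∑ l, (B i l : ℚ) * ((v j l : ℚ) - (v j0 l : ℚ)) := by
        simp only [hd, Finset.mul_sum]
        rw [Finset.sum_comm]
        exact Finset.sum_congr rfl fun j _ => Finset.sum_congr rfl fun l _ => by ring
      rw [h1]
      by_cases hi : i ∈ T
      · have h2 := congrFun ha ⟨i, hi⟩
        simp only [Finset.sum_apply, Pi.smul_apply, smul_eq_mul, Pi.zero_apply] at h2
        exact h2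
      · have h3 : ∃ ρ, f ρ = i := by
          by_contra hcon
          push Not at hcon
          exact hi (Finset.mem_filter.2 ⟨Finset.mem_univ _, hcon⟩)
        obtain ⟨ρ, rfl⟩ := h3
        refine Finset.sum_eq_zero fun j _ => ?_
        have h4 := hmin ρ ρ.2 j (Finset.mem_of_mem_erase j.2) j0 hj0
        have h5 : ∑ l, (B (f ρ) l : ℚ) * ((v j l : ℚ) - (v j0 l : ℚ)) = 0 := by
          have h6 : ∀ l, (B (f ρ) l : ℚ) = ((ρ : Fin N → ℕ) l : ℚ) := fun l => by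
            rw [hf ρ l]; simp
          simp only [h6, mul_sub, Finset.sum_sub_distrib]
          rw [sub_eq_zero]
          exact_mod_cast h4
        rw [h5, mul_zero]
    have hd0 : d = 0 := by
      have hdet : (B.map (Int.cast : ℤ → ℚ)).det ≠ 0 := by
        have h1 : (B.map (Int.cast : ℤ → ℚ)).det = ((B.det : ℤ) : ℚ) := by
          have := (Int.castRingHom ℚ).map_det B
          simpa using this.symm
        rw [h1]
        exact_mod_cast hB.ne_zero
      refine Matrix.eq_zero_of_mulVec_eq_zero hdet ?_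
      funext i
      simpa [Matrix.mulVec, dotProduct] using hBd i
    -- linear independence of the differences
    have hli : LinearIndependent ℚ (fun j : {j // j ∈ J.erase j0} =>
        ((fun i => (v j i : ℚ)) -ᵥ (fun i => (v j0 i : ℚ)) : Fin N → ℚ)) := by
      have := hli0.comp (fun j : {j // j ∈ J.erase j0} =>
        (⟨⟨j.1, Finset.mem_of_mem_erase j.2⟩, fun h =>
          Finset.ne_of_mem_erase j.2 (congrArg Subtype.val h)⟩ : {x : J // x ≠ ⟨j0, hj0⟩})) (by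
          intro x y hxy
          apply Subtype.ext
          exact congrArg (fun z : {x : J // x ≠ ⟨j0, hj0⟩} => ((z : J) : Fin r)) hxy)
      exact this
    rw [Fintype.linearIndependent_iff] at hli
    refine hli a ?_
    funext l
    have h1 := congrFun hd0 l
    simp only [hd, Pi.zero_apply] at h1
    simpa [Finset.sum_apply] using h1
  have hspan : Submodule.span ℚ (Set.range g) = ⊤ := by
    refine hg.span_eq_top_of_card_eq_finrank' ?_
    rw [Fintype.card_coe, Finset.card_erase_of_mem hj0, Module.finrank_fintype_fun_eq_card,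
      Fintype.card_coe, hTc]
  -- the linear form given by `c` on `T`
  let φ : (T → ℚ) →ₗ[ℚ] ℚ := ∑ i : T, (c i : ℚ) • LinearMap.proj i
  have hφ : ∀ x : T → ℚ, φ x = ∑ i : T, (c i : ℚ) * x i := by
    intro x
    simp [φ]
  have hφg : ∀ j, φ (g j) = 0 := by
    intro j
    rw [hφ]
    have h1 := hw j (Finset.mem_of_mem_erase j.2)
    have h2 := hw j0 hj0
    have h3 : ∑ i, (c i : ℚ) * ∑ l, (B i l : ℚ) * ((v j l : ℚ) - (v j0 l : ℚ)) = 0 := by
      have h4 : ∀ l, (w l : ℚ) = ∑ i, (c i : ℚ) * (B i l : ℚ) := by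
        intro l
        rw [← hwB]
        simp [Matrix.vecMul, dotProduct]
      have h5 : ∑ i, (c i : ℚ) * ∑ l, (B i l : ℚ) * ((v j l : ℚ) - (v j0 l : ℚ)) =
          ∑ l, (w l : ℚ) * ((v j l : ℚ) - (v j0 l : ℚ)) := by
        simp only [h4, Finset.mul_sum, Finset.sum_mul]
        rw [Finset.sum_comm]
        exact Finset.sum_congr rfl fun l _ => Finset.sum_congr rfl fun i _ => by ring
      rw [h5]
      simp only [mul_sub, Finset.sum_sub_distrib]
      have h6 : (∑ l, w l * (v j l : ℤ)) = ∑ l, w l * (v j0 l : ℤ) := by linarith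
      rw [sub_eq_zero]
      exact_mod_cast h6
    rw [← Finset.sum_filter_add_sum_filter_not Finset.univ (fun i => ∀ ρ, f ρ ≠ i)] at h3
    have h7 : ∑ i ∈ Finset.univ.filter (fun i => ¬ ∀ ρ, f ρ ≠ i),
        (c i : ℚ) * ∑ l, (B i l : ℚ) * ((v j l : ℚ) - (v j0 l : ℚ)) = 0 := by
      refine Finset.sum_eq_zero fun i hi => ?_
      have hi' := (Finset.mem_filter.1 hi).2
      push Not at hi'
      obtain ⟨ρ, rfl⟩ := hi'
      have h4 := hmin ρ ρ.2 j (Finset.mem_of_mem_erase j.2) j0 hj0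
      have h5 : ∑ l, (B (f ρ) l : ℚ) * ((v j l : ℚ) - (v j0 l : ℚ)) = 0 := by
        have h6 : ∀ l, (B (f ρ) l : ℚ) = ((ρ : Fin N → ℕ) l : ℚ) := fun l => by
          rw [hf ρ l]; simp
        simp only [h6, mul_sub, Finset.sum_sub_distrib]
        rw [sub_eq_zero]
        exact_mod_cast h4
      rw [h5, mul_zero]
    rw [h7, add_zero] at h3
    rw [← h3, ← Finset.sum_coe_sort T]
  have hφ0 : φ = 0 := by
    refine LinearMap.ext_on_range hspan fun j => ?_
    rw [hφg j]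
    rfl
  have hcT : ∀ i ∈ T, c i = 0 := by
    intro i hi
    have h1 := LinearMap.congr_fun hφ0 (Pi.single (⟨i, hi⟩ : T) 1)
    rw [hφ, Finset.sum_eq_single (⟨i, hi⟩ : T)] at h1
    · simp only [Pi.single_eq_same, mul_one, LinearMap.zero_apply] at h1
      exact_mod_cast h1
    · intro b _ hb
      simp [hb]
    · intro hcon; exact absurd (Finset.mem_univ _) hcon
  refine ⟨fun ρ => if h : ρ ∈ σ then c (f ⟨ρ, h⟩) else 0, fun l => ?_⟩
  have h1 : w l = ∑ i, c i * B i l := by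
    conv_lhs => rw [← hwB]
    simp [Matrix.vecMul, dotProduct]
  rw [h1, ← Finset.sum_coe_sort σ]
  have h2 : ∑ i, c i * B i l = ∑ i ∈ Finset.univ.image f, c i * B i l := by
    refine (Finset.sum_subset (Finset.subset_univ _) fun i _ hi => ?_).symm
    rw [hcT i, zero_mul]
    refine Finset.mem_filter.2 ⟨Finset.mem_univ _, fun ρ hρ => hi ?_⟩
    rw [← hρ]
    exact Finset.mem_image_of_mem _ (Finset.mem_univ _)
  rw [h2, Finset.sum_image fun x _ y _ h => hinj h]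
  refine Finset.sum_congr rfl fun ρ _ => ?_
  have h3 : (fun ρ' : Fin N → ℕ => if h : ρ' ∈ σ then c (f ⟨ρ', h⟩) else 0) (ρ : Fin N → ℕ) =
      c (f ρ) := dif_pos ρ.2
  rw [h3, hf ρ l]

/-- For a cone `σ` of the dimension of the face dual to the simplex `J`: all the multiplicities of
the divisors of `σ` are divisible by `e` iff `Tw v J e`. -/
lemma tw_iffJ (v : Fin r → Fin N → ℕ) (R : SmoothFan N)
    (σ : Finset (Fin N → ℕ)) (hσ : σ ∈ R.cones) (e : ℕ) (J : Finset (Fin r)) (hv : IndJ v J)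
    (hJ : J.Nonempty) (hJσ : J ⊆ minSet v σ)
    (hcard : σ.card + J.card = N + 1) :
    (∀ ρ ∈ σ, e ∣ ordAlong v ρ) ↔ Tw v J e := by
  have hmem : ∀ j ∈ J, ∀ ρ ∈ σ, ∑ l, ρ l * v j l = ordAlong v ρ := by
    intro j hj
    simpa [minSet] using hJσ hj
  constructor
  · intro h w t hw
    obtain ⟨j0, hj0⟩ := hJ
    obtain ⟨c, hc⟩ := exists_combJ v J hv R σ hσ ⟨j0, hj0⟩
      (fun ρ hρ j hj j' hj' => by rw [hmem j hj ρ hρ, hmem j' hj' ρ hρ]) hcard w t hw
    have h1 := hw j0 hj0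
    have h2 : ∑ i, w i * (v j0 i : ℤ) = ∑ ρ ∈ σ, c ρ * (ordAlong v ρ : ℤ) := by
      simp only [hc, Finset.sum_mul]
      rw [Finset.sum_comm]
      refine Finset.sum_congr rfl fun ρ hρ => ?_
      rw [← hmem j0 hj0 ρ hρ]
      push_cast
      rw [Finset.mul_sum]
      exact Finset.sum_congr rfl fun l _ => by ring
    have h3 : t = -∑ ρ ∈ σ, c ρ * (ordAlong v ρ : ℤ) := by rw [← h2]; linarith
    rw [h3]
    refine (Finset.dvd_sum fun ρ hρ => ?_).neg_right
    exact Dvd.dvd.mul_left (by exact_mod_cast h ρ hρ) _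
  · intro h ρ hρ
    have h1 := h (fun l => (ρ l : ℤ)) (-(ordAlong v ρ : ℤ)) (fun j hj => by
      rw [← hmem j hj ρ hρ]
      push_cast
      ring)
    rw [dvd_neg] at h1
    exact_mod_cast h1

/-- the value of the limit of the functional at the kernel -/
noncomputable def ZH (v : Fin r → Fin N → ℕ) (R : SmoothFan N) (θ : Fin r → ℝ) (e : ℕ)
    (α s : ℝ) : ℂ :=
  open Classical in
  ∑ J : Finset (Fin r), if Tw v J e then
    (idx v J : ℂ) ^ 2 * ((-1) ^ J.card * limJH v R θ α s J) else 0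

lemma kerH_lim (v : Fin r → Fin N → ℕ) (R : SmoothFan N) (θ : Fin r → ℝ) (e : ℕ) (he : 2 ≤ e)
    (K α s : ℝ) (hs : 0 < s)
    (hC : ∀ J : Finset (Fin r), J.Nonempty → idx v J ≠ 0 →
      Tendsto (fun m : ℕ => ∫ x, integH v θ K α s J m x
      ∂(Measure.pi (ms (∅ : Finset (Fin (N+1)))))) atTop (𝓝 (limJH v R θ α s J))) :
    Tendsto (fun m : ℕ => Φ (ph (dl m ^ 4)) ∅ (lm (N := N) s) (av v) (yzH v θ K α m) (kerE v e))
      atTop (𝓝 (ZH v R θ e α s)) := by
  classical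
  have h1 : ∀ m : ℕ, Φ (ph (dl m ^ 4)) ∅ (lm (N := N) s) (av v) (yzH v θ K α m) (kerE v e) =
      ∑ J : Finset (Fin r), if Tw v J e then (idx v J : ℂ) ^ 2 * ((-1) ^ J.card *
        ∫ x, integH v θ K α s J m x ∂(Measure.pi (ms (∅ : Finset (Fin (N+1)))))) else 0 := by
    intro m
    unfold kerE
    rw [Φ_sum (ph_dseq _ (pow_pos (dl_pos m) 4)) _ _ (lm_pos s hs)]
    refine Finset.sum_congr rfl fun J _ => ?_
    by_cases hT : Tw v J e
    · rw [if_pos hT, if_pos hT, Φ_C_mul, Φ_XJ]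
    · rw [if_neg hT, if_neg hT]
      have h2 := Φ_C_mul (φ := ph (dl m ^ 4)) ∅ (lm (N := N) s) (av v) (yzH v θ K α m) 0 0
      simpa using h2
  simp only [h1]
  unfold ZH
  refine tendsto_finsetSum _ fun J _ => ?_
  by_cases hT : Tw v J e
  · simp only [if_pos hT]
    have hJ : J.Nonempty := by
      rw [Finset.nonempty_iff_ne_empty]
      rintro rfl
      exact not_tw_empty v e he hT
    by_cases hz : idx v J = 0
    · rw [hz]
      simp only [Nat.cast_zero, ne_eq, OfNat.ofNat_ne_zero, not_false_eq_true, zero_pow, zero_mul]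
      exact tendsto_const_nhds
    · exact ((hC J hJ hz).const_mul _).const_mul _
  · simp only [if_neg hT]
    exact tendsto_const_nhds

/-- **`p(s) ZH(s)` is a polynomial.** -/
theorem pZH (v : Fin r → Fin N → ℕ) (θ : Fin r → ℝ) (loc : Prop) (R : SmoothFan N)
    (e : ℕ) (he : 2 ≤ e)
    (α : ℝ) (hα : loc → α < 0) (p : Polynomial ℂ) (hR : Pool.Agent.W425.SV.RelV v θ loc p)
    (hC : ∀ K : ℝ, 0 < K → ∀ s : ℝ, 0 < s → ∀ J : Finset (Fin r), J.Nonempty → idx v J ≠ 0 →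
      Tendsto (fun m : ℕ => ∫ x, integH v θ K α s J m x
        ∂(Measure.pi (ms (∅ : Finset (Fin (N+1)))))) atTop (𝓝 (limJH v R θ α s J))) :
    ∃ (Q : Polynomial ℂ) (s0 : ℝ), 0 < s0 ∧ ∀ s : ℝ, s0 ≤ s →
      p.eval (s : ℂ) * ZH v R θ e α s = Q.eval (s : ℂ) := by
  obtain ⟨K0, s0, hK0, hs0, hkill⟩ := Pool.Agent.W425.SV.killsV v θ loc p hR (kerE v e)
    (taskKE v e)
  set K : ℝ := (2 + |α|) * K0 + 1 with hK
  have hKpos : 0 < K := by positivity
  have hev : ∀ᶠ m in atTop, dl m ^ 2 * K0 < 1 ∧ (loc → (dl m ^ 3 + dl m) * K0 < -α) := by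
    have h1 : Tendsto (fun m => dl m ^ 2 * K0) atTop (𝓝 (0 ^ 2 * K0)) :=
      (dl_tendsto.pow 2).mul_const K0
    have h2 : Tendsto (fun m => (dl m ^ 3 + dl m) * K0) atTop (𝓝 ((0 ^ 3 + 0) * K0)) :=
      ((dl_tendsto.pow 3).add dl_tendsto).mul_const K0
    have h3 : (0:ℝ) ^ 2 * K0 = 0 := by ring
    have h4 : ((0:ℝ) ^ 3 + 0) * K0 = 0 := by ring
    rw [h3] at h1
    rw [h4] at h2
    have h5 := h1.eventually (gt_mem_nhds one_pos)
    by_cases hl : loc
    · filter_upwards [h5, h2.eventually (gt_mem_nhds (show (0:ℝ) < -α by linarith [hα hl]))]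
        with m hm hm'
      exact ⟨hm, fun _ => hm'⟩
    · filter_upwards [h5] with m hm
      exact ⟨hm, fun h => absurd h hl⟩
  obtain ⟨Q, hQ⟩ := limit_poly'
    (fun m => PeK v (yzH v θ K α m) (dl m ^ 4) (kerE v e) p) p.natDegree
    (fun m => PeK_natDegree _ _ _ _ _) (fun s => p.eval (s : ℂ) * ZH v R θ e α s) s0 (by
      intro s hs
      have hs' : 0 < s := hs0.trans_le hs
      have h1 := (kerH_lim v R θ e he K α s hs'
        (fun J hJ hJ' => hC K hKpos s hs' J hJ hJ')).const_mul (p.eval (s : ℂ))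
      refine h1.congr' ?_
      filter_upwards [hev] with m hm
      refine PeK_eval v _ _ _ p s (pow_pos (dl_pos m) 4) hs' ?_
      rw [yzH_eq]
      have hd := dl_pos m
      have hd1 := dl_le m
      have hd2 : 0 < dl m ^ 2 := pow_pos hd 2
      have hd2' : dl m ^ 2 ≤ dl m := by nlinarith
      have hd4' : dl m ^ 4 ≤ dl m := by
        have : dl m ^ 4 = dl m ^ 2 * dl m ^ 2 := by ring
        rw [this]
        nlinarith
      refine hkill _ (pow_pos hd 4) _ hd2 ?_ _ ?_ _ ?_ s hs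
      · have h5 : dl m ^ 4 * K0 = dl m ^ 2 * (dl m ^ 2 * K0) := by ring
        rw [h5]
        nlinarith [hm.1]
      · intro hl
        have h5 : (dl m ^ 4 + dl m ^ 2) * K0 = dl m * ((dl m ^ 3 + dl m) * K0) := by ring
        rw [h5]
        nlinarith [hm.2 hl]
      · rw [abs_mul, abs_of_pos hd, hK]
        have h3 : (dl m ^ 4 + |α| * dl m + dl m ^ 2) * K0 ≤ (dl m + |α| * dl m + dl m) * K0 :=
          mul_le_mul_of_nonneg_right (by linarith) hK0
        nlinarith)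
  exact ⟨Q, s0, hs0, fun s hs => hQ s hs⟩

open Classical in
lemma ZH_eq (v : Fin r → Fin N → ℕ) (R : SmoothFan N)
    (θ : Fin r → ℝ) (e : ℕ) (α s : ℝ) :
    ZH v R θ e α s = ∑ σ ∈ R.cones,
      if Inc α σ ∧ (∃ ρ ∈ σ, ordAlong v ρ ≠ 0) ∧ (∀ ρ ∈ σ, e ∣ ordAlong v ρ) then
        sv v θ σ * wc v σ s else 0 := by
  have h0 : ZH v R θ e α s = ∑ J : Finset (Fin r), ∑ σ ∈ R.cones,
      if J ⊆ minSet v σ ∧ σ.card + J.card = N + 1 ∧ Inc α σ ∧ (∃ ρ ∈ σ, ordAlong v ρ ≠ 0) ∧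
        Adm v θ J ∧ Tw v J e then
        (idx v J : ℂ) ^ 2 * ((-1) ^ J.card * ((idx v J : ℂ)⁻¹ * wc v σ s)) else 0 := by
    unfold ZH limJH
    refine Finset.sum_congr rfl fun J _ => ?_
    by_cases hT : Tw v J e
    · rw [if_pos hT, Finset.mul_sum, Finset.mul_sum]
      refine Finset.sum_congr rfl fun σ _ => ?_
      by_cases h : J ⊆ minSet v σ ∧ σ.card + J.card = N + 1 ∧ Inc α σ ∧
          (∃ ρ ∈ σ, ordAlong v ρ ≠ 0) ∧ Adm v θ J
      · rw [if_pos h, if_pos ⟨h.1, h.2.1, h.2.2.1, h.2.2.2.1, h.2.2.2.2, hT⟩]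
        rfl
      · rw [if_neg h, if_neg (fun h' => h ⟨h'.1, h'.2.1, h'.2.2.1, h'.2.2.2.1, h'.2.2.2.2.1⟩)]
        simp
    · rw [if_neg hT]
      refine (Finset.sum_eq_zero fun σ _ => ?_).symm
      rw [if_neg (fun h' => hT h'.2.2.2.2.2)]
  rw [h0, Finset.sum_comm]
  refine Finset.sum_congr rfl fun σ hσ => ?_
  by_cases hE : Inc α σ ∧ (∃ ρ ∈ σ, ordAlong v ρ ≠ 0) ∧ (∀ ρ ∈ σ, e ∣ ordAlong v ρ)
  swap
  · rw [if_neg hE]
    refine Finset.sum_eq_zero fun J _ => ?_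
    by_cases hz : idx v J = 0
    · rw [hz]; simp
    have hJI : IndJ v J := (Pool.Agent.W54.SG.taskC4 v J).1.1 hz
    have hle := card_le R σ hσ
    refine if_neg fun h => hE ⟨h.2.2.1, h.2.2.2.1, ?_⟩
    exact (tw_iffJ v R σ hσ e J hJI (Finset.card_pos.1 (by omega)) h.1 h.2.1).2 h.2.2.2.2.2
  rw [if_pos hE]
  unfold sv Pool.Agent.W425.SG.nvol
  have hle := card_le R σ hσ
  push_cast
  rw [Finset.mul_sum, Finset.sum_mul]
  have h1 : ∀ J : Finset (Fin r), (if J ⊆ minSet v σ ∧ σ.card + J.card = N + 1 ∧ Inc α σ ∧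
      (∃ ρ ∈ σ, ordAlong v ρ ≠ 0) ∧ Adm v θ J ∧ Tw v J e then
      (idx v J : ℂ) ^ 2 * ((-1) ^ J.card * ((idx v J : ℂ)⁻¹ * wc v σ s)) else 0) =
      if J ⊆ minSet v σ ∧ (σ.card + J.card = N + 1 ∧ Adm v θ J) then
        (-1) ^ (N + 1 - σ.card) * (idx v J : ℂ) * wc v σ s else 0 := by
    intro J
    by_cases hz : idx v J = 0
    · rw [hz]; simp
    have hJI : IndJ v J := (Pool.Agent.W54.SG.taskC4 v J).1.1 hz
    by_cases hJ : J ⊆ minSet v σ ∧ (σ.card + J.card = N + 1 ∧ Adm v θ J)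
    · have hT := (tw_iffJ v R σ hσ e J hJI (Finset.card_pos.1 (by omega)) hJ.1 hJ.2.1).1 hE.2.2
      rw [if_pos hJ, if_pos ⟨hJ.1, hJ.2.1, hE.1, hE.2.1, hJ.2.2, hT⟩]
      have h2 : N + 1 - σ.card = J.card := by omega
      rw [h2]
      have h0 : (idx v J : ℂ) ≠ 0 := by exact_mod_cast hz
      field_simp
    · rw [if_neg hJ, if_neg (fun h => hJ ⟨h.1, h.2.1, h.2.2.2.2.1⟩)]
  simp only [h1]
  rw [← Finset.sum_filter]
  refine Finset.sum_congr ?_ fun _ _ => rfl
  ext J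
  simp only [Finset.mem_filter, Finset.mem_univ, true_and, Finset.mem_powerset]

/-- The twisted topological zeta function for `e ≥ 2`, without the strict transform. -/
noncomputable def twG (v : Fin r → Fin N → ℕ) (R : SmoothFan N) (e : ℕ) (α : ℝ) : RatFunc ℂ :=
  open Classical in
  ∑ σ ∈ R.cones.filter (fun σ => Inc α σ ∧ (∃ ρ ∈ σ, ordAlong v ρ ≠ 0) ∧
      ∀ ρ ∈ σ, e ∣ ordAlong v ρ),
    RatFunc.C (((chiO σ : ℝ) - GC.chiG v R σ : ℝ) : ℂ) *
    ∏ ρ ∈ σ, ((ordAlong v ρ : RatFunc ℂ) * RatFunc.X + ((∑ l, ρ l : ℕ) : RatFunc ℂ))⁻¹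

open Classical Polynomial in
theorem main_tw [NeZero r] (v : Fin r → Fin N → ℕ) (hv : Function.Injective v)
    (θ : Fin r → ℝ) (hθ : LinearIndependent ℚ θ) (loc : Prop)
    (R : SmoothFan N) (hR : Principal v R) (e : ℕ) (he : 2 ≤ e)
    (α : ℝ) (hα0 : α ≠ 0) (hα : loc → α < 0) (p : ℂ[X])
    (hp : Pool.Agent.W425.SV.RelV v θ loc p) :
    ∃ P : ℂ[X], algebraMap ℂ[X] (RatFunc ℂ) p * twG v R e α = algebraMap ℂ[X] (RatFunc ℂ) P := by
  obtain ⟨Q, s0, hs0, hQ⟩ := pZH v θ loc R e he α hα p hp (by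
    intro K hK s hs J hJ hne
    have hI := (Pool.Agent.W54.SG.taskC4 v J).1.1 hne
    obtain ⟨d, Θ, κ, hA, hL⟩ := Pool.Agent.W333.SG.taskC1 v R J hI hJ
    rw [← Pool.Agent.W349.SG.taskC3 v R hR θ α s hα0 hs J hI hJ d Θ κ hA hL hne]
    exact Pool.Agent.W327.SG.taskC2 v θ hθ K α s hK hα0 hs J hI hJ d Θ κ hA)
  have hidx1 : ∀ J, J.card = 1 → idx v J = 1 := fun J hJ => (Pool.Agent.W54.SG.taskC4 v J).2.1 hJ
  set F : ℝ → ℂ := fun s => ∑ σ ∈ R.cones.filter
    (fun σ => Inc α σ ∧ (∃ ρ ∈ σ, ordAlong v ρ ≠ 0) ∧ ∀ ρ ∈ σ, e ∣ ordAlong v ρ),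
    (((chiO σ : ℝ) - GC.chiG v R σ : ℝ) : ℂ) * wc v σ s with hF
  have hRp : Rp (twG v R e α) F := by
    unfold twG
    refine Rp.sum _ _ _ fun σ hσ => ?_
    refine Rp.mul ?_ ?_
    · have h9 := Rp.poly (Polynomial.C ((((chiO σ : ℝ) - GC.chiG v R σ : ℝ)) : ℂ))
      rw [RatFunc.algebraMap_C] at h9
      simpa only [Polynomial.eval_C] using h9
    · unfold wc
      refine Rp.prod _ _ _ fun ρ hρ => ?_
      exact Rp.inv_lin _ _ (ray_sum_pos R σ (Finset.mem_filter.1 hσ).1 ρ hρ)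
  refine ⟨-Q, hRp.final _ _ s0 hs0 fun s hs => ?_⟩
  have h1 := hQ s hs
  have h2 : F s = -ZH v R θ e α s := by
    rw [ZH_eq v R θ e α s]
    show ∑ σ ∈ R.cones.filter (fun σ => Inc α σ ∧ (∃ ρ ∈ σ, ordAlong v ρ ≠ 0) ∧
      ∀ ρ ∈ σ, e ∣ ordAlong v ρ), (((chiO σ : ℝ) - GC.chiG v R σ : ℝ) : ℂ) * wc v σ s = _
    rw [Finset.sum_filter, ← Finset.sum_neg_distrib]
    refine Finset.sum_congr rfl fun σ hσ => ?_
    by_cases h : Inc α σ ∧ (∃ ρ ∈ σ, ordAlong v ρ ≠ 0) ∧ (∀ ρ ∈ σ, e ∣ ordAlong v ρ)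
    swap
    · rw [if_neg h, if_neg h]; simp
    rw [if_pos h, if_pos h, GC.chiG_eq v θ hθ R σ hσ, ← neg_mul]
    congr 1
    have hle := card_le R σ hσ
    by_cases hc : σ.card = N
    · rw [sv_full v hv R hR θ hidx1 σ hσ hc]
      unfold chiO Pool.Agent.W425.SG.chiG
      rw [if_pos hc, if_neg (by omega)]
      simp
    · unfold chiO Pool.Agent.W425.SG.chiG sv
      rw [if_neg hc, if_pos (by omega)]
      push_cast
      ring
  rw [h2, Polynomial.eval_neg, ← h1]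
  ring

end Pool.Agent.W422.GC.Tw
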