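import Pool.Agent.W425.SM.Final

set_option autoImplicit false

/-! # Strong monodromy conjecture for polynomials with generic coefficients

Polynomials `∑_j a_j x ^ (v j)` with algebraically independent coefficients `a_j` and arbitrary
exponents `v_j`: definitions. -/

namespace Pool.Agent.W422.GC

open MvPolynomial Pool.Agent.H628R4.TZ Pool.Agent.H628R4.TP Pool.Agent.W425.SM MeasureTheory

variable {r N : ℕ}

/-! ### The relation in the exponents -/

/-- `X_j (X_j - 1) ⋯ (X_j - t + 1)` -/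
noncomputable def ds (j : Fin r) (t : ℕ) : MvPolynomial (Fin r) ℂ :=
  ∏ m ∈ Finset.range t, (X j - C (m : ℂ))

noncomputable def dsv (α : Fin r → ℕ) : MvPolynomial (Fin r) ℂ := ∏ j, ds j (α j)

/-- `∑_j v_{j,i} X_j - h_i + 1` -/
noncomputable def eh (v : Fin r → Fin N → ℕ) (h : Fin N → ℕ) (i : Fin N) :
    MvPolynomial (Fin r) ℂ :=
  ∑ j, C (v j i : ℂ) * X j - C (h i : ℂ) + 1

/-- The relation which follows from the functional equation (`b = b_f`). -/
def RelU (loc : Prop) (v : Fin r → Fin N → ℕ) (b : Polynomial ℂ) : Prop :=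
  ∃ (H : ℕ) (h : Fin N → ℕ) (D Γ : Finset (Fin r → ℕ)) (d : (Fin r → ℕ) → ℂ)
    (q : (Fin r → ℕ) → MvPolynomial (Fin r) ℂ),
    (∀ α ∈ D, d α ≠ 0 ∧ ∑ j, α j = H ∧ ∀ i, h i ≤ ∑ j, α j * v j i) ∧
    (¬ loc → ∀ α ∈ D, ∀ i, ∑ j, α j * v j i = h i) ∧
    (∃ α ∈ D, ∀ i, ∑ j, α j * v j i = h i) ∧
    (∀ γ ∈ Γ, ∑ j, γ j + 1 = H) ∧
    Polynomial.aeval (∑ j, X j - C (H : ℂ) : MvPolynomial (Fin r) ℂ) b *
        ∑ α ∈ D, C (d α) * dsv α =
      (∑ j, X j - C (H : ℂ) + 1) * ∑ γ ∈ Γ,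
        (∏ i ∈ Finset.univ.filter (fun i => ∑ j, γ j * v j i < h i), eh v h i) *
          (dsv γ * q γ)

/-- The relation used by the functional; `p = b_f / (s + 1)`. -/
def RelG (loc : Prop) (v : Fin r → Fin N → ℕ) (u : Fin r → ℝ) (p : Polynomial ℂ) : Prop :=
  ∃ (M : ℕ) (Rs Cs : Finset (Fin r → ℤ)) (w q : (Fin r → ℤ) → MvPolynomial (Fin r) ℂ),
    (∀ ρ ∈ Rs, ∑ j, ρ j = 0 ∧ (∀ i, 0 ≤ ∑ j, ρ j * (v j i : ℤ)) ∧
      ((∀ i, ∑ j, ρ j * (v j i : ℤ) = 0) → 0 < ∑ j, (ρ j : ℝ) * u j) ∧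
      (¬ loc → ∀ i, ∑ j, ρ j * (v j i : ℤ) = 0)) ∧
    (∀ c ∈ Cs, ∑ j, c j = 1) ∧
    Polynomial.aeval (∑ j, X j : MvPolynomial (Fin r) ℂ) p *
        (∏ j, dm M j + ∑ ρ ∈ Rs, (∏ j, if 0 < ρ j then X j * dm M j else 1) * w ρ) =
      ∑ c ∈ Cs, (∏ i ∈ Bc v c, el v i) * ((∏ j, if c j < 0 then X j * dm M j else 1) * q c)

/-! ### The smoothed integrals with heights `u` -/

/-- the translation vector -/
noncomputable def yu (v : Fin r → Fin N → ℕ) (u : Fin r → ℝ) (K α : ℝ) (m : ℕ) (j : Fin r) : ℝ :=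
  yz v K α m j + dl m * u j

/-- the integrand for `J` -/
noncomputable def integU (v : Fin r → Fin N → ℕ) (u : Fin r → ℝ) (K α s : ℝ) (J : Finset (Fin r))
    (m : ℕ) (x : Fin (N+1) → ℝ) : ℂ :=
  wt (lm (N := N) s) x * ∏ j, (((if j ∈ J then -ph (dl m ^ 2) 1 (ymap v x j + yu v u K α m j)
    else ph (dl m ^ 2) 0 (ymap v x j + yu v u K α m j) : ℝ)) : ℂ)

/-- `j` is in the affine hull of `J` -/
def InAff (v : Fin r → Fin N → ℕ) (J : Finset (Fin r)) (j : Fin r) : Prop :=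
  ∃ c : Fin r → ℝ, (∀ l ∉ J, c l = 0) ∧ ∑ l, c l = 1 ∧ ∀ i, ∑ l, c l * (v l i : ℝ) = (v j i : ℝ)

/-- `J` is a lower simplex for the heights `u`, among the points of its affine hull -/
def Low (v : Fin r → Fin N → ℕ) (u : Fin r → ℝ) (J : Finset (Fin r)) : Prop :=
  ∀ j ∉ J, ∀ c : Fin r → ℝ, (∀ l ∉ J, c l = 0) → ∑ l, c l = 1 →
    (∀ i, ∑ l, c l * (v l i : ℝ) = (v j i : ℝ)) → ∑ l, c l * u l < u j

/-- the limit integrand -/
noncomputable def limGU (v : Fin r → Fin N → ℕ) (u : Fin r → ℝ) (α s : ℝ) (J : Finset (Fin r))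
    (x : Fin (N+1) → ℝ) : ℂ :=
  open Classical in
  if Low v u J ∧ 0 < x 0 ∧ (∀ i : Fin N, 0 < x i.succ ∨ (0 < α ∧ x i.succ = 0)) ∧
    (∀ j ∉ J, ¬ InAff v J j → 0 < ymap v x j)
  then wt (lm (N := N) s) x else 0

/-- the limit for `J` -/
noncomputable def limU (v : Fin r → Fin N → ℕ) (R : SmoothFan N) (u : Fin r → ℝ) (α s : ℝ)
    (J : Finset (Fin r)) : ℂ :=
  open Classical in
  if Low v u J then
    ∑ σ ∈ R.cones, if J ⊆ minSet v σ ∧ σ.card + J.card = N + 1 ∧ Inc α σ ∧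
        (∃ ρ ∈ σ, ordAlong v ρ ≠ 0) then
      (idx v J : ℂ)⁻¹ * ∏ ρ ∈ σ, ((ordAlong v ρ : ℂ) * s + ((∑ l, ρ l : ℕ) : ℂ))⁻¹ else 0
  else 0

/-! ### Volumes and the zeta function -/

/-- `B` is unimodular and its rows contain the generators of `σ` -/
def IsCompl (σ : Finset (Fin N → ℕ)) (B : Matrix (Fin N) (Fin N) ℤ) : Prop :=
  IsUnit B.det ∧ ∀ ρ ∈ σ, ∃ i, ∀ l, B i l = (ρ l : ℤ)

/-- the rows of `B` which are not generators of `σ` -/
abbrev Rest (σ : Finset (Fin N → ℕ)) (B : Matrix (Fin N) (Fin N) ℤ) : Type :=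
  {i : Fin N // ∀ ρ ∈ σ, ∃ l, B i l ≠ (ρ l : ℤ)}

/-- the exponent `v_j` in the coordinates given by the remaining rows of `B`: these are lattice
coordinates on the affine space spanned by the initial part of the cone `σ` -/
noncomputable def chart (v : Fin r → Fin N → ℕ) (σ : Finset (Fin N → ℕ))
    (B : Matrix (Fin N) (Fin N) ℤ) (j : Fin r) : Rest σ B → ℝ :=
  fun i => ((∑ l, B i l * (v j l : ℤ) : ℤ) : ℝ)

/-- The normalised volume of a subset of `ℝ ^ I`: the standard simplex has volume `1`. -/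
noncomputable def nvol {I : Type} [Fintype I] [DecidableEq I] (A : Set (I → ℝ)) : ℝ :=
  (volume A).toReal /
    (volume (convexHull ℝ (insert 0 (Set.range fun i : I => (Pi.single i 1 : I → ℝ))))).toReal

/-- The normalised volume (of dimension `N - σ.card`) of the Newton polytope of the initial part
of `∑_j a_j x ^ (v j)` for the cone `σ`. -/
noncomputable def faceVol (v : Fin r → Fin N → ℕ) (σ : Finset (Fin N → ℕ))
    (B : Matrix (Fin N) (Fin N) ℤ) : ℝ :=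
  open Classical in
  nvol (convexHull ℝ (chart v σ B '' {j | j ∈ minSet v σ}))

/-- The Euler characteristic of the intersection of the strict transform of
`{∑_j a_j x ^ (v j) = 0}` with the torus orbit of the cone `σ` (a torus of dimension
`d = N - σ.card`), for a nondegenerate polynomial (Kouchnirenko, Khovanskii): `(-1) ^ (d - 1)`
times the normalised volume of the Newton polytope, if `d ≥ 1`. -/
noncomputable def chiG (v : Fin r → Fin N → ℕ) (R : SmoothFan N) (σ : Finset (Fin N → ℕ)) : ℝ :=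
  open Classical in
  if h : σ ∈ R.cones ∧ σ.card < N then
    (-1) ^ (N - σ.card + 1) * faceVol v σ (Classical.choose (R.smooth σ h.1)) else 0

/-- The topological zeta function of a nondegenerate polynomial with the exponents `v_j`,
computed on the toric resolution given by `R`; only the cones `σ` with `I σ`. -/
noncomputable def topZG (v : Fin r → Fin N → ℕ) (R : SmoothFan N) (α : ℝ) : RatFunc ℂ :=
  open Classical in
  ∑ σ ∈ R.cones.filter (Inc α), (RatFunc.C (((chiO σ : ℝ) - chiG v R σ : ℝ) : ℂ) +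
      RatFunc.C ((chiG v R σ : ℝ) : ℂ) * (RatFunc.X + 1)⁻¹) *
    ∏ ρ ∈ σ, ((ordAlong v ρ : RatFunc ℂ) * RatFunc.X + ((∑ l, ρ l : ℕ) : RatFunc ℂ))⁻¹

end Pool.Agent.W422.GC
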