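import Pool.Agent.W422.GC.Defs

set_option autoImplicit false

/-! Statements of the parts. -/

namespace Pool.Agent.W422.GC

open MvPolynomial Pool.Agent.H628R4.TZ Pool.Agent.H628R4.TP Pool.Agent.W425.SM MeasureTheory
open Filter Topology

/-- LIM: the limit of the smoothed integrals (adapt W349.SM.C). -/
def S_LIM : Prop := ∀ {r N : ℕ} (v : Fin r → Fin N → ℕ) (u : Fin r → ℝ) (J : Finset (Fin r))
  (d : ℕ) (Θ : ((J → ℝ) × (Fin d → ℝ)) ≃ₗ[ℝ] (Fin (N+1) → ℝ)) (θ : ℝ), Adapt v J d Θ θ →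
  (∀ j ∉ J, ∀ c : Fin r → ℝ, (∀ l ∉ J, c l = 0) → ∑ l, c l = 1 →
    (∀ i, ∑ l, c l * (v l i : ℝ) = (v j i : ℝ)) → ∑ l, c l * u l ≠ u j) →
  ∀ K α s : ℝ, 0 < s → |Θ ((fun j : J => u j), 0) 0| < K →
  (∀ i : Fin N, |Θ ((fun j : J => u j), 0) i.succ| < |α|) → α ≠ 0 →
  Tendsto (fun m : ℕ => ∫ x, integU v u K α s J m x ∂(Measure.pi (ms (∅ : Finset (Fin (N+1))))))
    atTop (𝓝 ((θ : ℂ) * ∫ a, limGU v u α s J (Θ (0, a))))

/-- CELL: the value of the limit (adapt W655.SM.C3). -/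
def S_CELL : Prop := ∀ {r N : ℕ} [NeZero r] (v : Fin r → Fin N → ℕ) (R : SmoothFan N),
  Principal v R → ∀ (u : Fin r → ℝ) (α s : ℝ), α ≠ 0 → 0 < s → ∀ (J : Finset (Fin r)),
  J.Nonempty → idx v J ≠ 0 → ∀ (d : ℕ)
  (Θ : ((J → ℝ) × (Fin d → ℝ)) ≃ₗ[ℝ] (Fin (N+1) → ℝ)) (θ : ℝ), Adapt v J d Θ θ →
  (∀ σ ∈ R.cones, J ⊆ minSet v σ → σ.card + J.card = N + 1 →
      ∀ F : (Fin (N+1) → ℝ) → ℂ,
        (θ : ℂ) * (idx v J : ℂ) * ∫ a in reg v Θ σ, F (Θ (0, a)) =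
          ∫ c in {c : σ → ℝ | ∀ ρ, 0 < c ρ}, F (∑ ρ : σ, c ρ • rhoHat v (ρ : Fin N → ℕ))) →
  (θ : ℂ) * ∫ a, limGU v u α s J (Θ (0, a)) = limU v R u α s J

/-- ADP: adapted data for an affinely independent `J` (from `W375.SM.taskC1`, applied to the
family `(v_j)_{j ∈ J}`). -/
def S_ADP : Prop := ∀ {r N : ℕ} (v : Fin r → Fin N → ℕ) (R : SmoothFan N) (J : Finset (Fin r)),
  idx v J ≠ 0 → J.Nonempty → ∃ (d : ℕ) (Θ : ((J → ℝ) × (Fin d → ℝ)) ≃ₗ[ℝ] (Fin (N+1) → ℝ))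
    (θ : ℝ), Adapt v J d Θ θ ∧ ∀ σ ∈ R.cones, J ⊆ minSet v σ → σ.card + J.card = N + 1 →
      ∀ F : (Fin (N+1) → ℝ) → ℂ,
        (θ : ℂ) * (idx v J : ℂ) * ∫ a in reg v Θ σ, F (Θ (0, a)) =
          ∫ c in {c : σ → ℝ | ∀ ρ, 0 < c ρ}, F (∑ ρ : σ, c ρ • rhoHat v (ρ : Fin N → ℕ))

/-- KILL: the functional kills `kerP v * p(∑ X_j)` (adapt `killed`, `killsK` of W425.SM.FF). -/
def S_KILL : Prop := ∀ {r N : ℕ} (loc : Prop) (v : Fin r → Fin N → ℕ) (u : Fin r → ℝ)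
  (p : Polynomial ℂ), RelG loc v u p → ∃ A0 s0 : ℝ, 0 < s0 ∧ ∀ α : ℝ, A0 ≤ |α| → (loc → α < 0) →
    ∃ K0 : ℝ, ∀ K : ℝ, K0 ≤ K → ∀ᶠ m : ℕ in atTop, ∀ s : ℝ, s0 ≤ s →
      Φ (ph (dl m ^ 2)) ∅ (lm (N := N) s) (av v) (yu v u K α m)
        (kerP v * Polynomial.aeval (∑ j, X j : MvPolynomial (Fin r) ℂ) p) = 0

/-- U2G: the relation in the shifted variables. -/
def S_U2G : Prop := ∀ {r N : ℕ} (loc : Prop) (v : Fin r → Fin N → ℕ) (u : Fin r → ℝ)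
  (p : Polynomial ℂ), LinearIndependent ℚ u → RelU loc v ((Polynomial.X + 1) * p) →
  RelG loc v u p

/-! ### Volumes -/

/-- lower simplices, in `ℝ ^ I` -/
def LowR {T I : Type} [Fintype T] (p : T → (I → ℝ)) (u : T → ℝ) (J : Finset T) : Prop :=
  ∀ j ∉ J, ∀ c : T → ℝ, (∀ l ∉ J, c l = 0) → ∑ l, c l = 1 → ∑ l, c l • p l = p j →
    ∑ l, c l * u l < u j

/-- SIM: the volume of a simplex. -/
def S_SIM : Prop := ∀ {I : Type} [Fintype I] [DecidableEq I] (p0 : I → ℝ) (A : Matrix I I ℝ),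
  (volume (convexHull ℝ (insert p0 (Set.range fun i => p0 + A.row i)))).toReal =
    |A.det| * (volume (convexHull ℝ (insert 0
      (Set.range fun i : I => (Pi.single i 1 : I → ℝ))))).toReal

/-- TRI: a regular triangulation decomposes the volume. -/
def S_TRI : Prop := ∀ {T I : Type} [Fintype T] [DecidableEq T] [Fintype I] [DecidableEq I]
  (p : T → (I → ℝ)) (u : T → ℝ),
  (∀ J : Finset T, AffineIndependent ℝ (fun j : J => p j) → ∀ j ∉ J, ∀ c : T → ℝ,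
    (∀ l ∉ J, c l = 0) → ∑ l, c l = 1 → ∑ l, c l • p l = p j → ∑ l, c l * u l ≠ u j) →
  open Classical in
  (volume (convexHull ℝ (Set.range p))).toReal =
    ∑ J ∈ (Finset.univ : Finset (Finset T)).filter (fun J : Finset T => J.card = Fintype.card I + 1 ∧
      AffineIndependent ℝ (fun j : J => p j) ∧ LowR p u J),
      (volume (convexHull ℝ (p '' (J : Set T)))).toReal

/-- IDX: the index is the normalised volume of the simplex; equivalence of the conditions. -/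
def S_IDX : Prop := ∀ {r N : ℕ} (v : Fin r → Fin N → ℕ) (σ : Finset (Fin N → ℕ))
  (B : Matrix (Fin N) (Fin N) ℤ), IsCompl σ B → ∀ J : Finset (Fin r), J ⊆ minSet v σ →
  σ.card + J.card = N + 1 →
  (idx v J : ℝ) = (volume (convexHull ℝ (chart v σ B '' (J : Set (Fin r))))).toReal /
    (volume (convexHull ℝ (insert 0
      (Set.range fun i : Rest σ B => (Pi.single i 1 : Rest σ B → ℝ))))).toReal ∧
  (idx v J ≠ 0 ↔ AffineIndependent ℝ (fun j : J => chart v σ B j))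

/-- VOL: from SIM, TRI, IDX. -/
def S_VOL : Prop := ∀ {r N : ℕ} (v : Fin r → Fin N → ℕ) (u : Fin r → ℝ),
  LinearIndependent ℚ u → ∀ (R : SmoothFan N) (σ : Finset (Fin N → ℕ)), σ ∈ R.cones →
  σ.card < N → ∀ B : Matrix (Fin N) (Fin N) ℤ, IsCompl σ B →
  open Classical in
  faceVol v σ B = ∑ J ∈ (minSet v σ).powerset.filter
    (fun J => σ.card + J.card = N + 1 ∧ Low v u J), (idx v J : ℝ)

/-! ### The functional equation -/

/-- `g b(s) f ^ s = P(s) f ^ (s + 1)` -/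
def FE {N : ℕ} (g f : MvPolynomial (Fin N) ℂ) (b : Polynomial ℂ) : Prop :=
  ∃ P : ℕ →₀ weylS (Fin N), ∀ s : ℕ, g * (C (b.eval (s : ℂ)) * f ^ s) =
    P.sum fun m Q => ((s : ℂ) ^ m) •
      (Q : Module.End ℂ (MvPolynomial (Fin N) ℂ)) (f ^ (s + 1))

/-- REL: from the functional equation to the relation; the coefficients `a_j` are algebraically
independent over a field which contains the coefficients of `b`. -/
def S_REL : Prop := ∀ {r N : ℕ} (loc : Prop) (v : Fin r → Fin N → ℕ) (a : Fin r → ℂ)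
  (b : Polynomial ℂ) (F : Subfield ℂ), AlgebraicIndependent F a → b ≠ 0 →
  (∀ n, b.coeff n ∈ F) → ∀ g : MvPolynomial (Fin N) ℂ, constantCoeff g = 1 → (¬ loc → g = 1) →
  FE g (sparse v a) b → RelU loc v b

/-- RIG: the coefficients of the Bernstein-Sato polynomial are killed by all derivations. -/
def S_RIG : Prop := ∀ {N : ℕ} (f : MvPolynomial (Fin N) ℂ) (b : Polynomial ℂ), f ≠ 0 →
  IsBernsteinSatoOf f b → ∀ δ : Derivation ℤ ℂ ℂ, ∀ n, δ (b.coeff n) = 0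

/-- RIGL: the local version. -/
def S_RIGL : Prop := ∀ {N : ℕ} (f : MvPolynomial (Fin N) ℂ) (b : Polynomial ℂ), f ≠ 0 →
  b.Monic → (∃ g, constantCoeff g = 1 ∧ FE g f b) →
  (∀ b' : Polynomial ℂ, b'.Monic → (∃ g, constantCoeff g = 1 ∧ FE g f b') →
    b.natDegree ≤ b'.natDegree) → ∀ δ : Derivation ℤ ℂ ℂ, ∀ n, δ (b.coeff n) = 0

/-- DER: dual derivations of `ℂ`. -/
def S_DER : Prop := ∀ {r : ℕ} (a : Fin r → ℂ), AlgebraicIndependent ℚ a →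
  ∃ δ : Fin r → Derivation ℤ ℂ ℂ, ∀ i j, δ i (a j) = if i = j then 1 else 0

/-- AI: algebraic independence over the constants. -/
def S_AI : Prop := ∀ {r : ℕ} (a : Fin r → ℂ) (δ : Fin r → Derivation ℤ ℂ ℂ),
  (∀ i j, δ i (a j) = if i = j then 1 else 0) → ∀ F : Subfield ℂ, (∀ i, ∀ x ∈ F, δ i x = 0) →
  AlgebraicIndependent F a

/-- M1: `b(-1) = 0`. -/
def S_M1 : Prop := ∀ {N : ℕ} (g f : MvPolynomial (Fin N) ℂ) (b : Polynomial ℂ)
  (x : Fin N → ℂ), f ≠ 0 → eval x f = 0 → eval x g ≠ 0 → FE g f b → b.eval (-1) = 0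

/-- ZER: a nonconstant polynomial has a zero. -/
def S_ZER : Prop := ∀ {N : ℕ} (f : MvPolynomial (Fin N) ℂ), (∀ c, f ≠ C c) →
  ∃ x : Fin N → ℂ, eval x f = 0

end Pool.Agent.W422.GC
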